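import Mathlib
import Pool.Agent.MP_b9302b_co.Final

set_option autoImplicit false

namespace Pool.Agent.Results.MP_b9302b_co.AllOddGroups

universe u v

theorem range_eq {G : Type u} [CommGroup G] [Finite G] {m : ℕ} (hm : Nat.card G = 2 * m + 1)
    {f : Fin m ⊕ Fin m → G} (hf : Function.Injective f) (h1 : ∀ s, f s ≠ 1) :
    Set.range f = {1}ᶜ := by
  have hsub : Set.range f ⊆ ({1} : Set G)ᶜ := by
    rintro _ ⟨s, rfl⟩
    exact h1 s
  refine Set.eq_of_subset_of_ncard_le hsub ?_ (Set.toFinite _)
  have e1 : (Set.range f).ncard = 2 * m := by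
    rw [← Set.image_univ, Set.ncard_image_of_injective _ hf, Set.ncard_univ, Nat.card_eq_fintype_card,
      Fintype.card_sum, Fintype.card_fin]
    ring
  have e2 : ({1} : Set G)ᶜ.ncard = 2 * m := by
    have h2 := Set.ncard_add_ncard_compl ({1} : Set G)
    rw [Set.ncard_singleton, hm] at h2
    omega
  rw [e1, e2]

theorem core {H : Type v} [AddCommGroup H] {G : Type u} [CommGroup G] [Finite G]
    (φ : Multiplicative H ≃* G) {m : ℕ} (hm : Nat.card G = 2 * m + 1) (x y a : Fin m → H)
    (h1 : Function.Injective (Sum.elim x y)) (h2 : ∀ i, x i ≠ 0 ∧ y i ≠ 0)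
    (h3 : Function.Injective (Sum.elim (fun i => x i - y i) (fun i => y i - x i)))
    (h4 : Function.Injective a) (h5 : ∀ i, a i ≠ 0)
    (h6 : Function.Injective (Sum.elim (fun i => x i + a i) (fun i => y i + a i)))
    (h7 : ∀ i, x i + a i ≠ 0 ∧ y i + a i ≠ 0) :
    ∃ x y a : Fin ((Nat.card G - 1) / 2) → G,
      Function.Injective (Sum.elim x y) ∧ Set.range (Sum.elim x y) = {1}ᶜ ∧
      Function.Injective (Sum.elim (fun i => x i * (y i)⁻¹) (fun i => y i * (x i)⁻¹)) ∧
      Set.range (Sum.elim (fun i => x i * (y i)⁻¹) (fun i => y i * (x i)⁻¹)) = {1}ᶜ ∧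
      Function.Injective a ∧ (∀ i, a i ≠ 1) ∧
      Function.Injective (Sum.elim (fun i => x i * a i) (fun i => y i * a i)) ∧
      Set.range (Sum.elim (fun i => x i * a i) (fun i => y i * a i)) = {1}ᶜ := by
  have e : (Nat.card G - 1) / 2 = m := by omega
  rw [e]
  have hψ : Function.Injective (fun h : H => φ (Multiplicative.ofAdd h)) :=
    φ.injective.comp Multiplicative.ofAdd.injective
  have hψ1 : ∀ h : H, h ≠ 0 → φ (Multiplicative.ofAdd h) ≠ 1 := by
    intro h hh hc
    apply hh
    have : φ (Multiplicative.ofAdd h) = φ (Multiplicative.ofAdd 0) := by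
      rw [hc, ofAdd_zero, map_one]
    exact hψ this
  have hsub : ∀ g h : H, φ (Multiplicative.ofAdd g) * (φ (Multiplicative.ofAdd h))⁻¹ =
      φ (Multiplicative.ofAdd (g - h)) := by
    intro g h
    rw [ofAdd_sub, map_div, div_eq_mul_inv]
  have hadd : ∀ g h : H, φ (Multiplicative.ofAdd g) * φ (Multiplicative.ofAdd h) =
      φ (Multiplicative.ofAdd (g + h)) := by
    intro g h
    rw [ofAdd_add, map_mul]
  have i1 : Function.Injective (Sum.elim (fun i => φ (Multiplicative.ofAdd (x i)))
      (fun i => φ (Multiplicative.ofAdd (y i)))) := by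
    have e1 := hψ.comp h1
    rwa [Sum.comp_elim] at e1
  have i3 : Function.Injective (Sum.elim
      (fun i => φ (Multiplicative.ofAdd (x i)) * (φ (Multiplicative.ofAdd (y i)))⁻¹)
      (fun i => φ (Multiplicative.ofAdd (y i)) * (φ (Multiplicative.ofAdd (x i)))⁻¹)) := by
    have e1 := hψ.comp h3
    rw [Sum.comp_elim] at e1
    simp only [hsub]
    exact e1
  have i6 : Function.Injective (Sum.elim
      (fun i => φ (Multiplicative.ofAdd (x i)) * φ (Multiplicative.ofAdd (a i)))
      (fun i => φ (Multiplicative.ofAdd (y i)) * φ (Multiplicative.ofAdd (a i)))) := by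
    have e1 := hψ.comp h6
    rw [Sum.comp_elim] at e1
    simp only [hadd]
    exact e1
  refine ⟨fun i => φ (Multiplicative.ofAdd (x i)), fun i => φ (Multiplicative.ofAdd (y i)),
    fun i => φ (Multiplicative.ofAdd (a i)), i1, range_eq hm i1 ?_, i3, range_eq hm i3 ?_,
    hψ.comp h4, fun i => hψ1 _ (h5 i), i6, range_eq hm i6 ?_⟩
  · rintro (i | i)
    · exact hψ1 _ (h2 i).1
    · exact hψ1 _ (h2 i).2
  · have hxy : ∀ i, x i ≠ y i := by
      intro i hi
      have : (Sum.elim x y) (Sum.inl i) = (Sum.elim x y) (Sum.inr i) := hi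
      have h8 := h1 this
      simp at h8
    rintro (i | i)
    · show φ (Multiplicative.ofAdd (x i)) * (φ (Multiplicative.ofAdd (y i)))⁻¹ ≠ 1
      rw [hsub]
      exact hψ1 _ (sub_ne_zero.2 (hxy i))
    · show φ (Multiplicative.ofAdd (y i)) * (φ (Multiplicative.ofAdd (x i)))⁻¹ ≠ 1
      rw [hsub]
      exact hψ1 _ (sub_ne_zero.2 (hxy i).symm)
  · rintro (i | i)
    · show φ (Multiplicative.ofAdd (x i)) * φ (Multiplicative.ofAdd (a i)) ≠ 1
      rw [hadd]
      exact hψ1 _ (h7 i).1
    · show φ (Multiplicative.ofAdd (y i)) * φ (Multiplicative.ofAdd (a i)) ≠ 1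
      rw [hadd]
      exact hψ1 _ (h7 i).2

/-- Every finite abelian group of odd order, other than the groups of order 3 and 5 and the non-cyclic
group of order 9, has a starter with an adder. -/
theorem result (G : Type u) [CommGroup G] [Finite G] (hodd : Odd (Nat.card G))
    (h3 : Nat.card G ≠ 3) (h5 : Nat.card G ≠ 5) (h9 : Nat.card G = 9 → IsCyclic G) :
    ∃ x y a : Fin ((Nat.card G - 1) / 2) → G,
      Function.Injective (Sum.elim x y) ∧ Set.range (Sum.elim x y) = {1}ᶜ ∧
      Function.Injective (Sum.elim (fun i => x i * (y i)⁻¹) (fun i => y i * (x i)⁻¹)) ∧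
      Set.range (Sum.elim (fun i => x i * (y i)⁻¹) (fun i => y i * (x i)⁻¹)) = {1}ᶜ ∧
      Function.Injective a ∧ (∀ i, a i ≠ 1) ∧
      Function.Injective (Sum.elim (fun i => x i * a i) (fun i => y i * a i)) ∧
      Set.range (Sum.elim (fun i => x i * a i) (fun i => y i * a i)) = {1}ᶜ := by
  classical
  obtain ⟨m, hm⟩ := hodd
  by_cases hbig : 9 < Nat.card G
  · have : Finite (Shrink.{0} G) := Finite.of_equiv G (equivShrink.{0, u} G)
    have : Finite (Additive (Shrink.{0} G)) := inferInstanceAs (Finite (Shrink.{0} G))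
    have : Fintype (Additive (Shrink.{0} G)) := Fintype.ofFinite _
    have hc : Fintype.card (Additive (Shrink.{0} G)) = Nat.card G := by
      rw [← Nat.card_eq_fintype_card]
      exact Nat.card_congr ((Additive.toMul).trans (equivShrink.{0, u} G).symm)
    have hodd' : Odd (Fintype.card (Additive (Shrink.{0} G))) := by
      rw [hc]
      exact ⟨m, hm⟩
    obtain ⟨x, y, a, h1, h2, h3, h4, h5, h6, h7⟩ :=
      Pool.Agent.StarterAdder.exists_starter (Additive (Shrink.{0} G)) hodd'
        (Pool.Agent.StarterAdder.good_or_small (Additive (Shrink.{0} G)) hodd' (by rw [hc]; exact hbig))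
    have hφ : Nonempty (Multiplicative (Additive (Shrink.{0} G)) ≃* G) :=
      ⟨(MulEquiv.refl (Shrink.{0} G)).trans (Shrink.mulEquiv.{0, u} (α := G))⟩
    obtain ⟨φ⟩ := hφ
    exact core φ (m := (Fintype.card (Additive (Shrink.{0} G)) - 1) / 2) (by rw [hc]; omega)
      x y a h1 h2 h3 h4 h5 h6 h7
  · have hcases : Nat.card G = 1 ∨ Nat.card G = 7 ∨ Nat.card G = 9 := by omega
    rcases hcases with h | h | h
    · have hφ : Nonempty (Multiplicative (ZMod 1) ≃* G) := by
        have : Subsingleton G := (Nat.card_eq_one_iff_unique.1 h).1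
        have : Unique G := ⟨⟨1⟩, fun g => Subsingleton.elim _ _⟩
        exact ⟨MulEquiv.ofUnique⟩
      obtain ⟨φ⟩ := hφ
      exact core φ (m := 0) (by omega) Fin.elim0 Fin.elim0 Fin.elim0 (fun s => by
        rcases s with s | s <;> exact s.elim0) (fun i => i.elim0) (fun s => by
        rcases s with s | s <;> exact s.elim0) (fun i => i.elim0) (fun i => i.elim0) (fun s => by
        rcases s with s | s <;> exact s.elim0) (fun i => i.elim0)
    · have hφ : Nonempty (Multiplicative (ZMod 7) ≃* G) := by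
        have : Fact (Nat.Prime 7) := ⟨by norm_num⟩
        have hcyc : IsCyclic G := isCyclic_of_prime_card (p := 7) h
        rw [← h]
        exact ⟨zmodCyclicMulEquiv hcyc⟩
      obtain ⟨φ⟩ := hφ
      exact core φ (m := 3) (by omega) ![1, 2, 4] ![3, 6, 5] ![3, 6, 5] (by decide) (by decide)
        (by decide) (by decide) (by decide) (by decide) (by decide)
    · have hφ : Nonempty (Multiplicative (ZMod 9) ≃* G) := by
        have hcyc : IsCyclic G := h9 h
        rw [← h]
        exact ⟨zmodCyclicMulEquiv hcyc⟩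
      obtain ⟨φ⟩ := hφ
      exact core φ (m := 4) (by omega) ![1, 3, 4, 5] ![2, 7, 6, 8] ![1, 7, 2, 8] (by decide) (by decide)
        (by decide) (by decide) (by decide) (by decide) (by decide)

end Pool.Agent.Results.MP_b9302b_co.AllOddGroups
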